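import Pool.Agent.H5.KL.GDefs

/-! # Ranks of boxes, linear algebra (Theorem G) -/

open Matrix

namespace Pool.Agent.H5.KL

open Pool.Agent.H30.KL

variable {n : ℕ}

/-- multiplying on the right by `S` which maps the first `k` columns to combinations of them -/
theorem rank_bx_mul_right {i k : ℕ} {M S : Matrix (Fin n) (Fin n) ℂ}
    (h : ∀ p q : Fin n, k ≤ (p : ℕ) → (q : ℕ) < k → S p q = 0) :
    (bx i k (M * S)).rank ≤ (bx i k M).rank := by
  have h1 : bx i k (M * S) = bx i k M * (Matrix.of fun p q : Fin n => if (q : ℕ) < k then S p q else 0) := by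
    ext r q
    rw [bx_apply, mul_apply]
    by_cases h1 : i ≤ (r : ℕ)
    · by_cases h2 : (q : ℕ) < k
      · rw [if_pos ⟨h1, h2⟩, mul_apply]
        apply Finset.sum_congr rfl
        intro p _
        rw [bx_apply, of_apply, if_pos h2]
        by_cases h3 : (p : ℕ) < k
        · rw [if_pos ⟨h1, h3⟩]
        · rw [h p q (not_lt.1 h3) h2, mul_zero, mul_zero]
      · rw [if_neg (fun h => h2 h.2)]
        symm
        rw [mul_apply]
        apply Finset.sum_eq_zero
        intro p _
        rw [of_apply, if_neg h2, mul_zero]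
    · rw [if_neg (fun h => h1 h.1)]
      symm
      rw [mul_apply]
      apply Finset.sum_eq_zero
      intro p _
      rw [bx_apply, if_neg (fun h => h1 h.1), zero_mul]
  rw [h1]
  exact rank_mul_le_left _ _

/-- multiplying on the left by an upper triangular matrix -/
theorem rank_bx_mul_left {i k : ℕ} {A M : Matrix (Fin n) (Fin n) ℂ} (hA : Upper A) :
    (bx i k (A * M)).rank ≤ (bx i k M).rank := by
  have h1 : bx i k (A * M) = (Matrix.of fun p q : Fin n => if i ≤ (p : ℕ) then A p q else 0) * bx i k M := by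
    ext r q
    rw [bx_apply, mul_apply]
    by_cases h1 : i ≤ (r : ℕ)
    · by_cases h2 : (q : ℕ) < k
      · rw [if_pos ⟨h1, h2⟩, mul_apply]
        apply Finset.sum_congr rfl
        intro p _
        rw [bx_apply, of_apply, if_pos h1]
        by_cases h3 : i ≤ (p : ℕ)
        · rw [if_pos ⟨h3, h2⟩]
        · have h4 : p < r := by
            rw [Fin.lt_def]
            omega
          rw [hA r p h4, zero_mul, zero_mul]
      · rw [if_neg (fun h => h2 h.2)]
        symm
        rw [mul_apply]
        apply Finset.sum_eq_zero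
        intro p _
        rw [bx_apply, if_neg (fun h => h2 h.2), mul_zero]
    · rw [if_neg (fun h => h1 h.1)]
      symm
      rw [mul_apply]
      apply Finset.sum_eq_zero
      intro p _
      rw [of_apply, if_neg h1, zero_mul]
  rw [h1]
  exact rank_mul_le_right _ _

/-- the part of column `c` in the rows `≥ i` -/
def cl (i : ℕ) (M : Matrix (Fin n) (Fin n) ℂ) (c : Fin n) : Fin n → ℂ :=
  fun r => if i ≤ (r : ℕ) then M r c else 0

/-- span of the first `k` columns in the rows `≥ i` -/
noncomputable def W (i k : ℕ) (M : Matrix (Fin n) (Fin n) ℂ) : Submodule ℂ (Fin n → ℂ) :=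
  Submodule.span ℂ {x | ∃ c : Fin n, (c : ℕ) < k ∧ x = cl i M c}

theorem rank_bx (i k : ℕ) (M : Matrix (Fin n) (Fin n) ℂ) :
    (bx i k M).rank = Module.finrank ℂ (W i k M) := by
  have : Submodule.span ℂ (Set.range (bx i k M).col) = W i k M := by
    apply le_antisymm
    · rw [Submodule.span_le]
      rintro _ ⟨c, rfl⟩
      by_cases h : (c : ℕ) < k
      · apply Submodule.subset_span
        refine ⟨c, h, ?_⟩
        funext r
        simp [Matrix.col_apply, bx_apply, cl, h]
      · have : (bx i k M).col c = 0 := by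
          funext r
          simp [Matrix.col_apply, bx_apply, h]
        rw [this]
        exact Submodule.zero_mem _
    · rw [W, Submodule.span_le]
      rintro _ ⟨c, h, rfl⟩
      apply Submodule.subset_span
      refine ⟨c, ?_⟩
      funext r
      simp [Matrix.col_apply, bx_apply, cl, h]
  rw [rank_eq_finrank_span_cols, this]

theorem W_succ (i k : ℕ) (M : Matrix (Fin n) (Fin n) ℂ) (c : Fin n) (hc : (c : ℕ) = k) :
    W i (k + 1) M = W i k M ⊔ Submodule.span ℂ {cl i M c} := by
  rw [W, W, ← Submodule.span_union]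
  congr 1
  ext x
  simp only [Set.mem_setOf_eq, Set.mem_union, Set.mem_singleton_iff]
  constructor
  · rintro ⟨d, hd, rfl⟩
    rcases Nat.lt_succ_iff_lt_or_eq.1 hd with h | h
    · exact Or.inl ⟨d, h, rfl⟩
    · right
      have : d = c := Fin.ext (by omega)
      rw [this]
  · rintro (⟨d, hd, rfl⟩ | rfl)
    · exact ⟨d, by omega, rfl⟩
    · exact ⟨c, by omega, rfl⟩

theorem rank_bx_succ_le (i k : ℕ) (M : Matrix (Fin n) (Fin n) ℂ) :
    (bx i (k + 1) M).rank ≤ (bx i k M).rank + 1 := by
  by_cases hk : k < n
  · rw [rank_bx, rank_bx, W_succ i k M ⟨k, hk⟩ rfl]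
    have h1 := Submodule.finrank_add_le_finrank_add_finrank (W i k M) (Submodule.span ℂ {cl i M ⟨k, hk⟩})
    have h2 : Module.finrank ℂ (Submodule.span ℂ {cl i M ⟨k, hk⟩}) ≤ 1 := by
      have := finrank_span_le_card (R := ℂ) ({cl i M ⟨k, hk⟩} : Set (Fin n → ℂ))
      simpa using this
    omega
  · have : bx i (k + 1) M = bx i k M := by
      ext r q
      rw [bx_apply, bx_apply]
      have := q.2
      by_cases h : i ≤ (r : ℕ)
      · rw [if_pos ⟨h, by omega⟩, if_pos ⟨h, by omega⟩]
      · rw [if_neg (fun h' => h h'.1), if_neg (fun h' => h h'.1)]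
    rw [this]
    omega

end Pool.Agent.H5.KL
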