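import Pool.Agent.H5.KL.G1

/-! # The P¹ argument (Theorem G) -/

open Matrix

namespace Pool.Agent.H5.KL

open Pool.Agent.H30.KL

variable {n : ℕ}

/-- restriction to the rows `≥ i` -/
def Pr (i : ℕ) : (Fin n → ℂ) →ₗ[ℂ] (Fin n → ℂ) where
  toFun x := fun r => if i ≤ (r : ℕ) then x r else 0
  map_add' x y := by
    funext r
    by_cases h : i ≤ (r : ℕ) <;> simp [h]
  map_smul' c x := by
    funext r
    by_cases h : i ≤ (r : ℕ) <;> simp [h]

theorem Pr_cl {i i' : ℕ} (h : i ≤ i') (M : Matrix (Fin n) (Fin n) ℂ) (c : Fin n) :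
    Pr i' (cl i M c) = cl i' M c := by
  funext r
  simp only [Pr, LinearMap.coe_mk, AddHom.coe_mk, cl]
  by_cases h1 : i' ≤ (r : ℕ)
  · rw [if_pos h1, if_pos h1, if_pos (le_trans h h1)]
  · rw [if_neg h1, if_neg h1]

theorem map_W {i i' : ℕ} (h : i ≤ i') (k : ℕ) (M : Matrix (Fin n) (Fin n) ℂ) :
    (W i k M).map (Pr i') = W i' k M := by
  rw [W, Submodule.map_span, W]
  congr 1
  ext x
  constructor
  · rintro ⟨y, ⟨c, hc, rfl⟩, rfl⟩
    exact ⟨c, hc, Pr_cl h M c⟩
  · rintro ⟨c, hc, rfl⟩
    exact ⟨cl i M c, ⟨c, hc, rfl⟩, Pr_cl h M c⟩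

/-- if two more columns raise the rank by at most one, some combination of them depends on the
first columns -/
theorem dep {i : ℕ} {M : Matrix (Fin n) (Fin n) ℂ} {a b : Fin n} (hab : (b : ℕ) = a + 1)
    (h : (bx i (a + 2) M).rank ≤ (bx i a M).rank + 1) :
    ∃ α β : ℂ, (α ≠ 0 ∨ β ≠ 0) ∧ (α • cl i M b + β • cl i M a) ∈ W i a M := by
  have e1 : W i (a + 1) M = W i a M ⊔ Submodule.span ℂ {cl i M a} := W_succ i a M a rfl
  have e2 : W i (a + 2) M = W i (a + 1) M ⊔ Submodule.span ℂ {cl i M b} := W_succ i (a + 1) M b hab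
  rw [rank_bx, rank_bx] at h
  by_cases h1 : cl i M a ∈ W i a M
  · exact ⟨0, 1, Or.inr one_ne_zero, by simpa using h1⟩
  · have hlt : W i a M < W i (a + 1) M := by
      rw [e1]
      refine lt_of_le_of_ne le_sup_left ?_
      intro heq
      apply h1
      rw [heq]
      exact Submodule.mem_sup_right (Submodule.mem_span_singleton_self _)
    have h2 := Submodule.finrank_lt_finrank_of_lt hlt
    have h3 : W i (a + 1) M ≤ W i (a + 2) M := by
      rw [e2]
      exact le_sup_left
    have h4 : W i (a + 1) M = W i (a + 2) M := Submodule.eq_of_le_of_finrank_le h3 (by omega)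
    have h5 : cl i M b ∈ W i (a + 1) M := by
      rw [h4, e2]
      exact Submodule.mem_sup_right (Submodule.mem_span_singleton_self _)
    rw [e1, Submodule.mem_sup] at h5
    obtain ⟨y, hy, z, hz, hyz⟩ := h5
    obtain ⟨t, rfl⟩ := Submodule.mem_span_singleton.1 hz
    refine ⟨1, -t, Or.inl one_ne_zero, ?_⟩
    have : (1 : ℂ) • cl i M b + -t • cl i M a = y := by
      rw [← hyz]
      module
    rw [this]
    exact hy

theorem W_updateCol (i : ℕ) (M : Matrix (Fin n) (Fin n) ℂ) (a : Fin n) (x : Fin n → ℂ) {k : ℕ}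
    (hk : k ≤ a) : W i k (M.updateCol a x) = W i k M := by
  rw [W, W]
  congr 1
  ext y
  constructor
  · rintro ⟨c, hc, rfl⟩
    refine ⟨c, hc, ?_⟩
    funext r
    have : c ≠ a := by
      rintro rfl
      omega
    simp [cl, Matrix.updateCol_ne this]
  · rintro ⟨c, hc, rfl⟩
    refine ⟨c, hc, ?_⟩
    funext r
    have : c ≠ a := by
      rintro rfl
      omega
    simp [cl, Matrix.updateCol_ne this]

theorem rkN_succ_le (v : Equiv.Perm (Fin n)) (i k : ℕ) : rkN v i k ≤ rkN v i (k + 1) := by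
  apply Finset.card_le_card
  intro c hc
  simp only [Finset.mem_filter, Finset.mem_univ, true_and] at hc ⊢
  exact ⟨by omega, hc.2⟩

theorem rkN_succ (v : Equiv.Perm (Fin n)) (i : ℕ) (a : Fin n) :
    rkN v i (a + 1) = rkN v i a + if i ≤ (v a : ℕ) then 1 else 0 := by
  rw [rkN, rkN]
  have : (Finset.univ.filter fun c : Fin n => (c : ℕ) < a + 1 ∧ i ≤ (v c : ℕ)) =
      (Finset.univ.filter fun c : Fin n => (c : ℕ) < a ∧ i ≤ (v c : ℕ)) ∪
        (if i ≤ (v a : ℕ) then {a} else ∅) := by
    ext c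
    simp only [Finset.mem_filter, Finset.mem_univ, true_and, Finset.mem_union]
    by_cases h : i ≤ (v a : ℕ)
    · rw [if_pos h, Finset.mem_singleton]
      constructor
      · rintro ⟨h1, h2⟩
        rcases Nat.lt_succ_iff_lt_or_eq.1 h1 with h3 | h3
        · exact Or.inl ⟨h3, h2⟩
        · exact Or.inr (Fin.ext h3)
      · rintro (⟨h1, h2⟩ | rfl)
        · exact ⟨by omega, h2⟩
        · exact ⟨by omega, h⟩
    · rw [if_neg h]
      constructor
      · rintro ⟨h1, h2⟩
        rcases Nat.lt_succ_iff_lt_or_eq.1 h1 with h3 | h3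
        · exact Or.inl ⟨h3, h2⟩
        · exfalso
          have : c = a := Fin.ext h3
          rw [this] at h2
          exact h h2
      · rintro (⟨h1, h2⟩ | h1)
        · exact ⟨by omega, h2⟩
        · simp at h1
  rw [this, Finset.card_union_of_disjoint]
  · split_ifs <;> simp
  · split_ifs
    · rw [Finset.disjoint_singleton_right]
      simp
    · exact Finset.disjoint_empty_right _

/-- the P¹ argument: some combination of the columns `a, a+1` can be placed in column `a` -/
theorem pone {v : Equiv.Perm (Fin n)} {M : Matrix (Fin n) (Fin n) ℂ} {a b : Fin n}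
    (hab : (b : ℕ) = a + 1) (h0 : ∀ i : ℕ, (bx i a M).rank ≤ rkN v i a)
    (h2 : ∀ i : ℕ, (bx i (a + 2) M).rank ≤ rkN v i (a + 2)) :
    ∃ α β : ℂ, (α ≠ 0 ∨ β ≠ 0) ∧
      ∀ i : ℕ, (bx i (a + 1) (M.updateCol a fun r => α * M r b + β * M r a)).rank ≤
        rkN v i (a + 1) := by
  have key : ∀ (i : ℕ) (x : Fin n → ℂ), (i ≤ (v a : ℕ) ∨ (bx i a M).rank < rkN v i a) →
      (bx i (a + 1) (M.updateCol a x)).rank ≤ rkN v i (a + 1) := by
    intro i x h
    have h3 := rank_bx_succ_le i a (M.updateCol a x)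
    have h4 : (bx i a (M.updateCol a x)).rank = (bx i a M).rank := by
      rw [rank_bx, rank_bx, W_updateCol i M a x le_rfl]
    rw [rkN_succ]
    have h5 := h0 i
    rcases h with h | h
    · rw [if_pos h]
      omega
    · split_ifs <;> omega
  by_cases hbad : ∃ i : ℕ, (v a : ℕ) < i ∧ rkN v i a ≤ (bx i a M).rank
  · classical
    let i0 := Nat.find hbad
    have hi0 : (v a : ℕ) < i0 ∧ rkN v i0 a ≤ (bx i0 a M).rank := Nat.find_spec hbad
    have hmin : ∀ i < i0, i ≤ (v a : ℕ) ∨ (bx i a M).rank < rkN v i a := by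
      intro i hi
      have := Nat.find_min hbad hi
      by_contra hcon
      push Not at hcon
      exact this ⟨hcon.1, hcon.2⟩
    have h3 : rkN v i0 (a + 2) ≤ rkN v i0 a + 1 := by
      have e1 := rkN_succ v i0 a
      have e2 := rkN_succ v i0 b
      rw [hab] at e2
      rw [if_neg (not_le.2 hi0.1)] at e1
      have e3 : rkN v i0 ((a : ℕ) + 1 + 1) = rkN v i0 (a + 2) := rfl
      rw [e3] at e2
      rw [e2, e1]
      split_ifs <;> omega
    obtain ⟨α, β, hne, hmem⟩ := dep (i := i0) (M := M) hab (by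
      have := h2 i0
      omega)
    refine ⟨α, β, hne, ?_⟩
    intro i
    by_cases hi : i < i0
    · exact key i _ (hmin i hi)
    · have h4 : cl i (M.updateCol a fun r => α * M r b + β * M r a) a ∈ W i a M := by
        rw [← map_W (not_lt.1 hi) a M]
        refine ⟨_, hmem, ?_⟩
        rw [map_add, map_smul, map_smul, Pr_cl (not_lt.1 hi), Pr_cl (not_lt.1 hi)]
        funext r
        simp only [cl, Pi.add_apply, Pi.smul_apply, smul_eq_mul, updateCol_self]
        split_ifs <;> ring
      have h5 : W i (a + 1) (M.updateCol a fun r => α * M r b + β * M r a) = W i a M := by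
        rw [W_succ i a _ a rfl, W_updateCol i M a _ le_rfl]
        rw [sup_eq_left, Submodule.span_singleton_le_iff_mem]
        exact h4
      rw [rank_bx, h5, ← rank_bx]
      exact le_trans (h0 i) (rkN_succ_le v i a)
  · push Not at hbad
    refine ⟨0, 1, Or.inr one_ne_zero, ?_⟩
    intro i
    apply key
    by_cases h : i ≤ (v a : ℕ)
    · exact Or.inl h
    · exact Or.inr (hbad i (not_le.1 h))

end Pool.Agent.H5.KL
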