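import Pool.Agent.H5.KL.G1b

/-! # The last ascent and the curve (Theorem G) -/

open Matrix

namespace Pool.Agent.H5.KL

open Pool.Agent.H30.KL

variable {n : ℕ}

/-- `a, b = a + 1` is the last ascent of `u` -/
structure LastAsc (u : Equiv.Perm (Fin n)) (a b : Fin n) : Prop where
  hab : (b : ℕ) = a + 1
  lt : u a < u b
  dec : ∀ c d : Fin n, b ≤ c → c < d → u d < u c

theorem swap_symm_apply (u : Equiv.Perm (Fin n)) (a b x : Fin n) :
    (u * Equiv.swap a b).symm x = Equiv.swap a b (u.symm x) := by
  rw [Equiv.symm_apply_eq]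
  simp

theorem swap_lt {a b x y : Fin n} (hab : (b : ℕ) = a + 1) (h : ¬ (x = a ∧ y = b))
    (h' : ¬ (x = b ∧ y = a)) : Equiv.swap a b x < Equiv.swap a b y ↔ x < y := by
  rw [Equiv.swap_apply_def, Equiv.swap_apply_def]
  simp only [Fin.ext_iff] at h h' ⊢
  split_ifs <;> simp only [Fin.lt_def] <;> omega

/-- positions in `u s` -/
theorem pos_lt {u : Equiv.Perm (Fin n)} {a b : Fin n} (hab : (b : ℕ) = a + 1) {p q : Fin n}
    (h : ¬ (p = u a ∧ q = u b)) (h' : ¬ (p = u b ∧ q = u a)) :
    (u * Equiv.swap a b).symm p < (u * Equiv.swap a b).symm q ↔ u.symm p < u.symm q := by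
  rw [swap_symm_apply, swap_symm_apply]
  apply swap_lt hab
  · rintro ⟨h1, h2⟩
    exact h ⟨by rw [← h1]; simp, by rw [← h2]; simp⟩
  · rintro ⟨h1, h2⟩
    exact h' ⟨by rw [← h1]; simp, by rw [← h2]; simp⟩

theorem posA (u : Equiv.Perm (Fin n)) (a b : Fin n) : (u * Equiv.swap a b).symm (u a) = b := by
  rw [swap_symm_apply]; simp

theorem posB (u : Equiv.Perm (Fin n)) (a b : Fin n) : (u * Equiv.swap a b).symm (u b) = a := by
  rw [swap_symm_apply]; simp

theorem pos_other {u : Equiv.Perm (Fin n)} {a b p : Fin n} (h : p ≠ u a) (h' : p ≠ u b) :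
    (u * Equiv.swap a b).symm p = u.symm p := by
  rw [swap_symm_apply]
  apply Equiv.swap_apply_of_ne_of_ne
  · rintro rfl; simp at h
  · rintro rfl; simp at h'

/-- labels at the positions `≥ b` of `u s` are `< B` -/
theorem LastAsc.lt_B {u : Equiv.Perm (Fin n)} {a b : Fin n} (hL : LastAsc u a b) {g : Fin n}
    (hg : b ≤ (u * Equiv.swap a b).symm g) : g < u b := by
  by_cases h1 : g = u a
  · rw [h1]; exact hL.lt
  by_cases h2 : g = u b
  · rw [h2, posB] at hg
    have := hL.hab
    rw [Fin.le_def] at hg
    omega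
  rw [pos_other h1 h2] at hg
  have h3 : b < u.symm g := by
    refine lt_of_le_of_ne hg ?_
    intro h
    apply h2
    rw [h]; simp
  have := hL.dec b (u.symm g) le_rfl h3
  simpa using this

theorem steps_swap {u : Equiv.Perm (Fin n)} {a b : Fin n} (hL : LastAsc u a b) :
    Steps (u * Equiv.swap a b) = (Steps u).erase (u a, u b) := by
  ext ⟨p, q⟩
  rw [Finset.mem_erase, mem_Steps, mem_Steps]
  have hab := hL.hab
  by_cases h1 : p = u a ∧ q = u b
  · obtain ⟨rfl, rfl⟩ := h1
    simp only [posA, posB]
    constructor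
    · rintro ⟨_, h⟩
      exfalso
      rw [Fin.lt_def] at h
      omega
    · rintro ⟨h, _⟩
      exact absurd rfl h
  by_cases h2 : p = u b ∧ q = u a
  · obtain ⟨rfl, rfl⟩ := h2
    constructor
    · rintro ⟨h, _⟩
      exact absurd hL.lt (not_lt.2 h.le)
    · rintro ⟨_, h, _⟩
      exact absurd hL.lt (not_lt.2 h.le)
  rw [pos_lt hab h1 h2]
  constructor
  · rintro ⟨h3, h4⟩
    refine ⟨?_, h3, h4⟩
    intro h
    rw [Prod.mk.injEq] at h
    exact h1 h
  · rintro ⟨_, h3, h4⟩
    exact ⟨h3, h4⟩

theorem Pt.det {u v : Equiv.Perm (Fin n)} {Z : Matrix (Fin n) (Fin n) ℂ} (hZ : Pt u v Z) :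
    Z.det = 1 := by
  rw [Matrix.det_of_lowerTriangular Z]
  · apply Finset.prod_eq_one
    intro i _
    exact hZ.diag i
  · intro i j hij
    apply hZ.zero
    · intro h
      rw [h] at hij
      exact lt_irrefl _ hij
    · intro h
      have h1 : i < j := OrderDual.toDual_lt_toDual.1 hij
      exact absurd h.1 (not_lt.2 h1.le)

theorem curve {u v : Equiv.Perm (Fin n)} {a b : Fin n} (hL : LastAsc u a b)
    {Z : Matrix (Fin n) (Fin n) ℂ} (hZ : Pt (u * Equiv.swap a b) v Z) :
    ∃ E : Matrix (Fin n) (Fin n) ℂ, E (u b) (u a) = 0 ∧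
      ∀ ε : ℂ, ε ≠ 0 → Pt u v (Matrix.of fun r p =>
        Z r p - ε * E r p + if r = u b ∧ p = u a then ε⁻¹ else 0) := by
  classical
  set u' := u * Equiv.swap a b with hu'
  have hab := hL.hab
  have hAB : u a ≠ u b := hL.lt.ne
  -- nonzero entries
  have nz : ∀ r p, Z r p ≠ 0 → r ≠ p → p < r ∧ u'.symm p < u'.symm r := by
    intro r p h hne
    by_contra hcon
    exact h (hZ.zero r p hne hcon)
  have hdet : IsUnit Z.det := by rw [hZ.det]; exact isUnit_one
  set κ : Fin n → ℂ := fun y => Z⁻¹ (u b) y with hκdef
  have hκ : ∀ x, ∑ y, κ y * Z y x = if u b = x then 1 else 0 := by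
    intro x
    have h1 := congrFun (congrFun (nonsing_inv_mul Z hdet) (u b)) x
    rw [mul_apply, one_apply] at h1
    exact h1
  -- columns of G
  have colG : ∀ y x, b ≤ u'.symm x → Z y x ≠ 0 → b ≤ u'.symm y := by
    intro y x hx h
    by_cases hyx : y = x
    · rw [hyx]; exact hx
    · exact le_trans hx (nz y x h hyx).2.le
  have κG : ∀ y, b ≤ u'.symm y → κ y = 0 := by
    have : ∀ (m : ℕ) (y : Fin n), n - (y : ℕ) ≤ m → b ≤ u'.symm y → κ y = 0 := by
      intro m
      induction m with
      | zero =>
        intro y hy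
        have := y.2
        omega
      | succ m ih =>
        intro y hm hy
        have h1 := hκ y
        have hyB : u b ≠ y := by
          intro h
          rw [← h, hu', posB, Fin.le_def] at hy
          omega
        rw [if_neg hyB, Finset.sum_eq_single y] at h1
        · rwa [hZ.diag, mul_one] at h1
        · intro z _ hzy
          by_cases hz : Z z y = 0
          · rw [hz, mul_zero]
          · have h2 := nz z y hz hzy
            rw [ih z (by have := Fin.lt_def.1 h2.1; omega) (colG z y hy hz), zero_mul]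
        · intro h
          exact absurd (Finset.mem_univ y) h
    intro y hy
    exact this _ y le_rfl hy
  set w : Fin n → ℂ := fun g => Z g (u a) with hw
  have wG : ∀ g, w g ≠ 0 → b ≤ u'.symm g := by
    intro g hg
    apply colG g (u a) _ hg
    rw [hu', posA]
  -- column B of Z
  have colB : ∀ r, Z r (u b) = if r = u b then 1 else 0 := by
    intro r
    by_cases h : r = u b
    · rw [if_pos h, h, hZ.diag]
    · rw [if_neg h]
      by_contra hne
      have h1 := nz r (u b) hne h
      rw [hu', posB] at h1
      have h2 : b ≤ u'.symm r := by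
        rw [Fin.le_def, hab]
        exact h1.2
      exact absurd (hL.lt_B h2) (not_lt.2 h1.1.le)
  set E : Matrix (Fin n) (Fin n) ℂ := Matrix.of fun g x =>
    w g * ∑ y, if y < g then κ y * Z y x else 0 with hE
  have Esupp : ∀ g x, E g x ≠ 0 → x < g ∧ u'.symm x < b ∧ b ≤ u'.symm g ∧ x ≠ u b := by
    intro g x h
    have h1 : w g ≠ 0 := fun h0 => h (by rw [hE, of_apply, h0, zero_mul])
    have h2 : ∑ y, (if y < g then κ y * Z y x else 0) ≠ 0 :=
      fun h0 => h (by rw [hE, of_apply, h0, mul_zero])
    obtain ⟨y, _, hy⟩ := Finset.exists_ne_zero_of_sum_ne_zero h2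
    have hyg : y < g := by
      by_contra h0
      rw [if_neg h0] at hy
      exact hy rfl
    rw [if_pos hyg] at hy
    have hκy : κ y ≠ 0 := left_ne_zero_of_mul hy
    have hzy : Z y x ≠ 0 := right_ne_zero_of_mul hy
    have hyG : ¬ b ≤ u'.symm y := fun h0 => hκy (κG y h0)
    have hgG := wG g h1
    have hxG : ¬ b ≤ u'.symm x := fun h0 => hyG (colG y x h0 hzy)
    have hxy : x ≤ y := by
      by_cases h0 : y = x
      · rw [h0]
      · exact (nz y x hzy h0).1.le
    refine ⟨lt_of_le_of_lt hxy hyg, not_le.1 hxG, hgG, ?_⟩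
    intro h0
    have := hL.lt_B hgG
    rw [h0] at hxy
    exact absurd (lt_of_le_of_lt hxy hyg) (not_lt.2 this.le)
  have E0 : E (u b) (u a) = 0 := by
    by_contra h
    have := (Esupp _ _ h).2.2.1
    rw [hu', posB, Fin.le_def] at this
    omega
  have EA : ∀ g, E g (u a) = 0 := by
    intro g
    by_contra h
    have := (Esupp _ _ h).2.1
    rw [hu', posA] at this
    exact lt_irrefl _ this
  have EB : ∀ g, E g (u b) = 0 := by
    intro g
    by_contra h
    exact (Esupp _ _ h).2.2.2 rfl
  refine ⟨E, E0, ?_⟩
  intro ε hε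
  -- the upper triangular matrix
  set D : Matrix (Fin n) (Fin n) ℂ := Matrix.of fun g y => if g < y then w g * κ y else 0 with hD
  have hU : Upper (1 + ε • D) := by
    intro p q hqp
    rw [Matrix.add_apply, Matrix.smul_apply, one_apply, if_neg (ne_of_gt hqp), hD, of_apply,
      if_neg (not_lt.2 hqp.le), smul_zero, add_zero]
  have hDE : ∀ g x, (D * Z) g x + E g x = if x = u b then w g else 0 := by
    intro g x
    have h1 : (D * Z) g x + E g x = w g * ∑ y, κ y * Z y x := by
      rw [mul_apply, hE, of_apply, Finset.mul_sum, Finset.mul_sum, ← Finset.sum_add_distrib]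
      apply Finset.sum_congr rfl
      intro y _
      rw [hD, of_apply]
      rcases lt_trichotomy g y with h | h | h
      · rw [if_pos h, if_neg (not_lt.2 h.le)]
        ring
      · subst h
        rw [if_neg (lt_irrefl _), if_neg (lt_irrefl _)]
        by_cases hw0 : w g = 0
        · rw [hw0]; ring
        · rw [κG g (wG g hw0)]; ring
      · rw [if_neg (not_lt.2 h.le), if_pos h]
        ring
    rw [h1, hκ x]
    by_cases h : x = u b
    · rw [if_pos h, if_pos h.symm, mul_one]
    · rw [if_neg h, if_neg (fun h' => h h'.symm), mul_zero]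
  have hM : ∀ r x, ((1 + ε • D) * Z) r x = Z r x - ε * E r x + if x = u b then ε * w r else 0 := by
    intro r x
    rw [add_mul, one_mul, Matrix.add_apply, smul_mul, Matrix.smul_apply, smul_eq_mul]
    have h1 := hDE r x
    have h2 : (D * Z) r x = (if x = u b then w r else 0) - E r x := by
      rw [← h1]; ring
    rw [h2]
    split_ifs <;> ring
  set T : Matrix (Fin n) (Fin n) ℂ := Matrix.of fun p q =>
    if q = a then (if p = a then ε⁻¹ else 0)
    else if q = b then (if p = a then 1 else if p = b then -ε else 0)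
    else if p = q then 1 else 0 with hT
  have hanb : a ≠ b := by
    intro h
    rw [h] at hab
    omega
  have key : (Matrix.of fun r p => Z r p - ε * E r p + if r = u b ∧ p = u a then ε⁻¹ else 0).submatrix
      id u = (((1 + ε • D) * Z).submatrix id u') * T := by
    ext r q
    rw [mul_apply, submatrix_apply, of_apply, id]
    by_cases hqa : q = a
    · subst hqa
      rw [Finset.sum_eq_single q]
      · rw [hT, of_apply, if_pos rfl, if_pos rfl, submatrix_apply, id, hM]
        have e1 : u' q = u b := by rw [hu']; simp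
        rw [e1, if_pos rfl, colB r, EB, EA]
        by_cases hr : r = u b
        · rw [if_pos ⟨hr, rfl⟩, if_pos hr]
          field_simp
          ring
        · rw [if_neg (fun h => hr h.1), if_neg hr]
          field_simp
          ring
      · intro p _ hp
        rw [hT, of_apply, if_pos rfl, if_neg hp, mul_zero]
      · intro h
        exact absurd (Finset.mem_univ _) h
    by_cases hqb : q = b
    · subst hqb
      have e0 : ∀ p, T p q = if p = a then 1 else if p = q then -ε else 0 := by
        intro p
        rw [hT, of_apply, if_neg hqa, if_pos rfl]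
      have e1 : u' a = u q := by rw [hu']; simp
      have e2 : u' q = u a := by rw [hu']; simp
      rw [Finset.sum_eq_add a q hanb]
      · rw [e0, e0, if_pos rfl, if_neg hqa, if_pos rfl, submatrix_apply, submatrix_apply, id, hM, hM, e1, e2,
          if_pos rfl, if_neg hAB, EB, EA, colB]
        have : ¬ (r = u q ∧ u q = u a) := fun h => hAB h.2.symm
        rw [if_neg this]
        ring
      · intro p _ hp
        rw [e0, if_neg hp.1, if_neg hp.2, mul_zero]
      · intro h
        exact absurd (Finset.mem_univ _) h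
      · intro h
        exact absurd (Finset.mem_univ _) h
    · rw [Finset.sum_eq_single q]
      · rw [hT, of_apply, if_neg hqa, if_neg hqb, if_pos rfl, submatrix_apply, id, hM, mul_one]
        have e1 : u' q = u q := by
          rw [hu', Equiv.Perm.mul_apply, Equiv.swap_apply_of_ne_of_ne hqa hqb]
        rw [e1, if_neg (fun h => hqb (u.injective h)), if_neg (fun h => hqa (u.injective h.2))]
      · intro p _ hp
        rw [hT, of_apply, if_neg hqa, if_neg hqb, if_neg hp, mul_zero]
      · intro h
        exact absurd (Finset.mem_univ _) h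
  have hTU : ∀ p q : Fin n, q < p → T p q = 0 := by
    intro p q hqp
    rw [hT, of_apply]
    by_cases h1 : q = a
    · rw [if_pos h1, if_neg]
      rintro rfl
      rw [h1] at hqp
      exact lt_irrefl _ hqp
    · rw [if_neg h1]
      by_cases h2 : q = b
      · rw [if_pos h2, if_neg, if_neg]
        · rintro rfl
          rw [h2] at hqp
          exact lt_irrefl _ hqp
        · rintro rfl
          rw [h2, Fin.lt_def] at hqp
          omega
      · rw [if_neg h2, if_neg (ne_of_gt hqp)]
  constructor
  · intro p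
    rw [of_apply, hZ.diag]
    have h1 : E p p = 0 := by
      by_contra h
      exact lt_irrefl _ (Esupp _ _ h).1
    have h2 : ¬ (p = u b ∧ p = u a) := by
      rintro ⟨h3, h4⟩
      exact hAB (h4.symm.trans h3)
    rw [h1, if_neg h2]
    ring
  · intro r p hne hns
    rw [of_apply]
    have h2 : ¬ (r = u b ∧ p = u a) := by
      rintro ⟨h3, h4⟩
      apply hns
      rw [h3, h4]
      refine ⟨hL.lt, ?_⟩
      simp only [Equiv.symm_apply_apply]
      rw [Fin.lt_def]
      omega
    rw [if_neg h2]
    have h3 : Z r p = 0 := by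
      by_contra h
      have h4 := nz r p h hne
      apply hns
      refine ⟨h4.1, ?_⟩
      by_cases h5 : p = u b ∧ r = u a
      · exfalso
        rw [h5.1, h5.2] at h4
        exact absurd hL.lt (not_lt.2 h4.1.le)
      · exact (pos_lt hab (fun h => h2 ⟨h.2, h.1⟩) h5).1 h4.2
    have h4 : E r p = 0 := by
      by_contra h
      have h4 := Esupp r p h
      apply hns
      refine ⟨h4.1, ?_⟩
      have h5 : u'.symm p < u'.symm r := lt_of_lt_of_le h4.2.1 h4.2.2.1
      exact (pos_lt hab (fun h => h2 ⟨h.2, h.1⟩) (fun h => h4.2.2.2 h.1)).1 h5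
    rw [h3, h4]
    ring
  · intro i k
    rw [key]
    refine le_trans (rank_bx_mul_right ?_) ?_
    · intro p q hp hq
      apply hTU
      rw [Fin.lt_def]
      omega
    · have : ((1 + ε • D) * Z).submatrix id u' = (1 + ε • D) * (Z.submatrix id u') := by
        ext r q
        simp [mul_apply]
      rw [this]
      exact le_trans (rank_bx_mul_left hU) (hZ.rank i k)

end Pool.Agent.H5.KL
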