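import Pool.Agent.H5.KL.G2

/-! # Lifting points from `(us, v*s)` (Theorem G) -/

open Matrix

namespace Pool.Agent.H5.KL

open Pool.Agent.H30.KL

variable {n : ℕ}

theorem rkN_swap {v : Equiv.Perm (Fin n)} {a b : Fin n} (hab : (b : ℕ) = a + 1) (i : ℕ) {k : ℕ}
    (hk : k ≠ a + 1) : rkN (v * Equiv.swap a b) i k = rkN v i k := by
  have hs : ∀ c : Fin n, (Equiv.swap a b c : ℕ) < k ↔ (c : ℕ) < k := by
    intro c
    rw [Equiv.swap_apply_def]
    split_ifs with h1 h2
    · rw [h1]; omega
    · rw [h2]; omega
    · rfl
  rw [rkN, rkN]
  apply Finset.card_bij (fun c _ => Equiv.swap a b c)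
  · intro c hc
    simp only [Finset.mem_filter, Finset.mem_univ, true_and] at hc ⊢
    exact ⟨(hs c).2 hc.1, hc.2⟩
  · intro c _ d _ h
    exact (Equiv.swap a b).injective h
  · intro c hc
    simp only [Finset.mem_filter, Finset.mem_univ, true_and] at hc
    refine ⟨Equiv.swap a b c, ?_, by simp⟩
    simp only [Finset.mem_filter, Finset.mem_univ, true_and]
    refine ⟨(hs c).2 hc.1, ?_⟩
    simpa using hc.2

/-- the Demazure product `v * s` -/
def dem (v : Equiv.Perm (Fin n)) (a b : Fin n) : Equiv.Perm (Fin n) :=
  if v a < v b then v * Equiv.swap a b else v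

theorem rkN_dem {v : Equiv.Perm (Fin n)} {a b : Fin n} (hab : (b : ℕ) = a + 1) (i : ℕ) {k : ℕ}
    (hk : k ≠ a + 1) : rkN (dem v a b) i k = rkN v i k := by
  rw [dem]
  split_ifs
  · exact rkN_swap hab i hk
  · rfl

theorem rkN_dem_eq {v : Equiv.Perm (Fin n)} {a b : Fin n} (hab : (b : ℕ) = a + 1) (i : ℕ) :
    rkN (dem v a b) i (a + 1) = rkN v i a + 1 ∨ rkN (dem v a b) i (a + 1) = rkN v i (a + 2) := by
  have e1 := rkN_succ v i a
  have e2 := rkN_succ v i b
  have e3 := rkN_succ (dem v a b) i a
  rw [rkN_dem hab i (k := (a : ℕ)) (by omega)] at e3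
  rw [hab] at e2
  have e4 : rkN v i ((a : ℕ) + 1 + 1) = rkN v i (a + 2) := rfl
  rw [e4, e1] at e2
  have e5 : ((dem v a b) a : ℕ) = max (v a : ℕ) (v b : ℕ) := by
    rw [dem]
    split_ifs with h
    · rw [Equiv.Perm.mul_apply, Equiv.swap_apply_left]
      rw [Fin.lt_def] at h
      omega
    · rw [Fin.lt_def] at h
      omega
  rw [e3, e2, e5]
  by_cases h1 : i ≤ (v a : ℕ) <;> by_cases h2 : i ≤ (v b : ℕ)
  · rw [if_pos (le_trans h1 (le_max_left _ _))]; left; rfl
  · rw [if_pos (le_trans h1 (le_max_left _ _))]; left; rfl
  · rw [if_pos (le_trans h2 (le_max_right _ _))]; left; rfl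
  · right
    rw [if_neg h1, if_neg h2, if_neg]
    omega

theorem Pt.nz {u v : Equiv.Perm (Fin n)} {Z : Matrix (Fin n) (Fin n) ℂ} (hZ : Pt u v Z)
    {r p : Fin n} (h : Z r p ≠ 0) (hne : r ≠ p) : p < r ∧ u.symm p < u.symm r := by
  by_contra hcon
  exact h (hZ.zero r p hne hcon)

theorem Pt.colB {u v : Equiv.Perm (Fin n)} {a b : Fin n} (hL : LastAsc u a b)
    {Z : Matrix (Fin n) (Fin n) ℂ} (hZ : Pt (u * Equiv.swap a b) v Z) (r : Fin n) :
    Z r (u b) = if r = u b then 1 else 0 := by
  by_cases h : r = u b
  · rw [if_pos h, h, hZ.diag]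
  · rw [if_neg h]
    by_contra hne
    have h1 := hZ.nz hne h
    rw [posB] at h1
    have h2 : b ≤ (u * Equiv.swap a b).symm r := by
      rw [Fin.le_def, hL.hab]
      exact h1.2
    exact absurd (hL.lt_B h2) (not_lt.2 h1.1.le)

theorem Pt.BA {u v : Equiv.Perm (Fin n)} {a b : Fin n} (hL : LastAsc u a b)
    {Z : Matrix (Fin n) (Fin n) ℂ} (hZ : Pt (u * Equiv.swap a b) v Z) : Z (u b) (u a) = 0 := by
  by_contra h
  have h1 := hZ.nz h hL.lt.ne'
  rw [posA, posB, Fin.lt_def] at h1
  have := hL.hab
  omega

theorem bx_congr {i k : ℕ} {M N : Matrix (Fin n) (Fin n) ℂ}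
    (h : ∀ r q : Fin n, (q : ℕ) < k → M r q = N r q) : bx i k M = bx i k N := by
  ext r q
  rw [bx_apply, bx_apply]
  by_cases h1 : i ≤ (r : ℕ) ∧ (q : ℕ) < k
  · rw [if_pos h1, if_pos h1, h r q h1.2]
  · rw [if_neg h1, if_neg h1]

theorem lift {u v : Equiv.Perm (Fin n)} {a b : Fin n} (hL : LastAsc u a b)
    {Z : Matrix (Fin n) (Fin n) ℂ} (hZ : Pt (u * Equiv.swap a b) (dem v a b) Z) :
    Pt (u * Equiv.swap a b) v Z ∨
      ∃ t : ℂ, Pt u v (Matrix.of fun r p => Z r p + if r = u b ∧ p = u a then t else 0) := by
  set u' := u * Equiv.swap a b with hu'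
  have hab := hL.hab
  have hAB : u a ≠ u b := hL.lt.ne
  have hanb : a ≠ b := by
    intro h
    rw [h] at hab
    omega
  set M := Z.submatrix id u' with hM
  have ea : u' a = u b := by rw [hu']; simp
  have eb : u' b = u a := by rw [hu']; simp
  have eo : ∀ q, q ≠ a → q ≠ b → u' q = u q := by
    intro q h1 h2
    rw [hu', Equiv.Perm.mul_apply, Equiv.swap_apply_of_ne_of_ne h1 h2]
  obtain ⟨α, β, hne, hr⟩ := pone (v := v) (M := M) hab
    (fun i => by have := hZ.rank i a; rwa [rkN_dem hab i (by omega)] at this)
    (fun i => by have := hZ.rank i (a + 2); rwa [rkN_dem hab i (by omega)] at this)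
  by_cases hα : α = 0
  · left
    have hβ : β ≠ 0 := by
      rcases hne with h | h
      · exact absurd hα h
      · exact h
    refine ⟨hZ.diag, hZ.zero, ?_⟩
    intro i k
    by_cases hk : k = a + 1
    · subst hk
      have h1 : M = (M.updateCol a fun r => α * M r b + β * M r a) *
          diagonal (fun q => if q = a then β⁻¹ else 1) := by
        ext r q
        rw [mul_diagonal]
        by_cases hq : q = a
        · rw [hq, updateCol_self, if_pos rfl, hα]
          field_simp
          ring
        · rw [updateCol_ne hq, if_neg hq, mul_one]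
      have h2 : (bx i (a + 1) M).rank ≤
          (bx i (a + 1) (M.updateCol a fun r => α * M r b + β * M r a)).rank := by
        conv_lhs => rw [h1]
        apply rank_bx_mul_right
        intro p q hp hq
        rw [diagonal_apply_ne]
        intro h
        rw [h] at hp
        omega
      exact le_trans h2 (hr i)
    · have := hZ.rank i k
      rwa [rkN_dem hab i hk] at this
  · right
    refine ⟨β / α, ?_, ?_, ?_⟩
    · intro p
      have h2 : ¬ (p = u b ∧ p = u a) := by
        rintro ⟨h3, h4⟩
        exact hAB (h4.symm.trans h3)
      rw [of_apply, hZ.diag, if_neg h2, add_zero]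
    · intro r p hrp hns
      have h2 : ¬ (r = u b ∧ p = u a) := by
        rintro ⟨h3, h4⟩
        apply hns
        rw [h3, h4]
        refine ⟨hL.lt, ?_⟩
        simp only [Equiv.symm_apply_apply]
        rw [Fin.lt_def]
        omega
      rw [of_apply, if_neg h2, add_zero]
      by_contra h
      have h4 := hZ.nz h hrp
      apply hns
      refine ⟨h4.1, ?_⟩
      by_cases h5 : p = u b ∧ r = u a
      · exfalso
        rw [h5.1, h5.2] at h4
        exact absurd hL.lt (not_lt.2 h4.1.le)
      · exact (pos_lt hab (fun h => h2 ⟨h.2, h.1⟩) h5).1 h4.2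
    · intro i k
      set N : Matrix (Fin n) (Fin n) ℂ :=
        (Matrix.of fun r p => Z r p + if r = u b ∧ p = u a then β / α else 0).submatrix id u with hN
      have Na : ∀ r, N r a = M r b + β / α * M r a := by
        intro r
        rw [hN, hM, submatrix_apply, submatrix_apply, submatrix_apply, of_apply, ea, eb, id,
          Pt.colB hL hZ]
        by_cases h : r = u b
        · rw [if_pos ⟨h, rfl⟩, if_pos h, mul_one]
        · rw [if_neg (fun h' => h h'.1), if_neg h, mul_zero]
      have Nb : ∀ r, N r b = M r a := by
        intro r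
        rw [hN, hM, submatrix_apply, submatrix_apply, of_apply, ea, id]
        rw [if_neg (fun h => hAB h.2.symm), add_zero]
      have No : ∀ r q, q ≠ a → q ≠ b → N r q = M r q := by
        intro r q h1 h2
        rw [hN, hM, submatrix_apply, submatrix_apply, of_apply, eo q h1 h2, id]
        rw [if_neg (fun h => h1 (u.injective h.2)), add_zero]
      by_cases hk : k = a + 1
      · subst hk
        have h1 : bx i (a + 1) N = bx i (a + 1) ((M.updateCol a fun r => α * M r b + β * M r a) *
            diagonal (fun q => if q = a then α⁻¹ else 1)) := by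
          apply bx_congr
          intro r q hq
          rw [mul_diagonal]
          by_cases h2 : q = a
          · rw [h2, updateCol_self, if_pos rfl, Na]
            field_simp
          · rw [updateCol_ne h2, if_neg h2, mul_one]
            apply No r q h2
            rintro rfl
            omega
        rw [h1]
        refine le_trans (rank_bx_mul_right ?_) (hr i)
        intro p q hp hq
        rw [diagonal_apply_ne]
        intro h
        rw [h] at hp
        omega
      · have h1 : N = M * (Matrix.of fun p q : Fin n =>
            if q = a then (if p = a then β / α else if p = b then 1 else 0)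
            else if q = b then (if p = a then 1 else 0)
            else if p = q then 1 else 0) := by
          ext r q
          rw [mul_apply]
          by_cases hqa : q = a
          · subst hqa
            rw [Finset.sum_eq_add q b hanb]
            · rw [of_apply, of_apply, if_pos rfl, if_pos rfl, if_pos rfl, if_neg hanb.symm, if_pos rfl, Na]
              ring
            · intro p _ hp
              rw [of_apply, if_pos rfl, if_neg hp.1, if_neg hp.2, mul_zero]
            · intro h
              exact absurd (Finset.mem_univ _) h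
            · intro h
              exact absurd (Finset.mem_univ _) h
          by_cases hqb : q = b
          · subst hqb
            rw [Finset.sum_eq_single a]
            · rw [of_apply, if_neg hqa, if_pos rfl, if_pos rfl, mul_one, Nb]
            · intro p _ hp
              rw [of_apply, if_neg hqa, if_pos rfl, if_neg hp, mul_zero]
            · intro h
              exact absurd (Finset.mem_univ _) h
          · rw [Finset.sum_eq_single q]
            · rw [of_apply, if_neg hqa, if_neg hqb, if_pos rfl, mul_one, No r q hqa hqb]
            · intro p _ hp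
              rw [of_apply, if_neg hqa, if_neg hqb, if_neg hp, mul_zero]
            · intro h
              exact absurd (Finset.mem_univ _) h
        rw [h1]
        refine le_trans (rank_bx_mul_right ?_) ?_
        · intro p q hp hq
          rw [of_apply]
          by_cases hqa : q = a
          · rw [if_pos hqa, if_neg, if_neg]
            · rintro rfl
              rw [hqa] at hq
              omega
            · rintro rfl
              rw [hqa] at hq
              omega
          · rw [if_neg hqa]
            by_cases hqb : q = b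
            · rw [if_pos hqb, if_neg]
              rintro rfl
              rw [hqb] at hq
              omega
            · rw [if_neg hqb, if_neg]
              rintro rfl
              omega
        · have := hZ.rank i k
          rwa [rkN_dem hab i hk] at this

end Pool.Agent.H5.KL
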