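import Pool.Agent.H5.KL.G3

/-! # Configurations of `us` and of `u` (Theorem G) -/

open Matrix

namespace Pool.Agent.H5.KL

open Pool.Agent.H30.KL

variable {n : ℕ} {u v : Equiv.Perm (Fin n)} {a b : Fin n}

theorem not_tail (hL : LastAsc u a b) {e : Fin n × Fin n}
    (he : e ∈ Steps (u * Equiv.swap a b)) : e.1 ≠ u b := by
  intro h
  obtain ⟨h1, h2⟩ := mem_Steps.1 he
  rw [h, posB] at h2
  have h3 : b ≤ (u * Equiv.swap a b).symm e.2 := by
    rw [Fin.le_def, hL.hab]
    exact h2
  have := hL.lt_B h3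
  rw [h] at h1
  exact absurd h1 (not_lt.2 this.le)

theorem head_lt (hL : LastAsc u a b) {e : Fin n × Fin n}
    (he : e ∈ Steps (u * Equiv.swap a b)) (h : e.1 = u a) : e.2 < u b := by
  obtain ⟨h1, h2⟩ := mem_Steps.1 he
  rw [h, posA] at h2
  exact hL.lt_B h2.le

theorem mono_swap (hL : LastAsc u a b) {T : Finset (Fin n × Fin n)}
    (hT : T ⊆ Steps (u * Equiv.swap a b)) (h : Mono (u * Equiv.swap a b) T) : Mono u T := by
  intro e he e' he' hne
  have h1 := not_tail hL (hT he)
  have h2 := not_tail hL (hT he')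
  rcases h e he e' he' hne with ⟨h3, h4⟩ | ⟨h3, h4⟩
  · left
    exact ⟨(pos_lt hL.hab (fun h => h2 h.2) (fun h => h1 h.1)).1 h3, h4⟩
  · right
    exact ⟨(pos_lt hL.hab (fun h => h1 h.2) (fun h => h2 h.1)).1 h3, h4⟩

theorem pos_lt_iff (hab : (b : ℕ) = a + 1) {k : ℕ} (hk : k ≠ a + 1) (y : Fin n) :
    (((u * Equiv.swap a b).symm y : Fin n) : ℕ) < k ↔ ((u.symm y : Fin n) : ℕ) < k := by
  rw [swap_symm_apply, Equiv.swap_apply_def]
  split_ifs with h1 h2
  · rw [h1]; omega
  · rw [h2]; omega
  · rfl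

theorem under_swap (hL : LastAsc u a b) {T : Finset (Fin n × Fin n)}
    (hT : T ⊆ Steps (u * Equiv.swap a b)) (i : ℕ) {k : ℕ} (hk : k ≠ a + 1) :
    Under (u * Equiv.swap a b) i k T = Under u i k T := by
  ext y
  rw [mem_Under, mem_Under, pos_lt_iff hL.hab hk]
  have key : ∀ e ∈ T, ((u * Equiv.swap a b).symm e.1 ≤ (u * Equiv.swap a b).symm y ∧ y ≤ e.2 ↔
      u.symm e.1 ≤ u.symm y ∧ y ≤ e.2) := by
    intro e he
    have h1 := not_tail hL (hT he)
    by_cases h2 : e.1 = u a ∧ y = u b
    · have h3 := head_lt hL (hT he) h2.1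
      have h4 : ¬ y ≤ e.2 := by
        rw [h2.2]
        exact not_le.2 h3
      exact ⟨fun h => absurd h.2 h4, fun h => absurd h.2 h4⟩
    · have h5 := pos_lt (u := u) hL.hab (p := y) (q := e.1) (fun h => h1 h.2)
        (fun h => h2 ⟨h.2, h.1⟩)
      rw [← not_lt, ← not_lt (a := u.symm y), h5]
  constructor
  · rintro ⟨h1, h2, e, he, h3⟩
    exact ⟨h1, h2, e, he, (key e he).1 h3⟩
  · rintro ⟨h1, h2, e, he, h3⟩
    exact ⟨h1, h2, e, he, (key e he).2 h3⟩

open Classical in
theorem card_under_succ (u : Equiv.Perm (Fin n)) (i : ℕ) (a : Fin n) (T : Finset (Fin n × Fin n)) :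
    (Under u i (a + 1) T).card = (Under u i a T).card +
      if i ≤ (u a : ℕ) ∧ ∃ e ∈ T, u.symm e.1 ≤ a ∧ u a ≤ e.2 then 1 else 0 := by
  have h : Under u i (a + 1) T = Under u i a T ∪
      (if i ≤ (u a : ℕ) ∧ ∃ e ∈ T, u.symm e.1 ≤ a ∧ u a ≤ e.2 then {u a} else ∅) := by
    ext y
    rw [Finset.mem_union, mem_Under, mem_Under]
    by_cases hy : y = u a
    · rw [hy]
      simp only [Equiv.symm_apply_apply]
      split_ifs with h
      · simp only [Finset.mem_singleton, or_true, iff_true]
        exact ⟨h.1, by omega, h.2⟩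
      · constructor
        · rintro ⟨h1, _, h3⟩
          exact absurd ⟨h1, h3⟩ h
        · rintro (⟨_, h2, _⟩ | h2)
          · exact absurd h2 (lt_irrefl _)
          · simp at h2
    · have h1 : u.symm y ≠ a := by
        intro h
        apply hy
        rw [← h]; simp
      have h2 : ((u.symm y : Fin n) : ℕ) < a + 1 ↔ ((u.symm y : Fin n) : ℕ) < a := by
        have : ((u.symm y : Fin n) : ℕ) ≠ a := fun h => h1 (Fin.ext h)
        omega
      rw [h2]
      have h3 : y ∉ (if i ≤ (u a : ℕ) ∧ ∃ e ∈ T, u.symm e.1 ≤ a ∧ u a ≤ e.2 then ({u a} : Finset (Fin n))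
          else ∅) := by
        split_ifs
        · simpa using hy
        · simp
      constructor
      · intro h
        exact Or.inl h
      · rintro (h | h)
        · exact h
        · exact absurd h h3
  rw [h, Finset.card_union_of_disjoint]
  · split_ifs <;> simp
  · split_ifs
    · rw [Finset.disjoint_singleton_right, mem_Under]
      simp
    · exact Finset.disjoint_empty_right _

theorem rkN_swap_succ (hab : (b : ℕ) = a + 1) (i : ℕ) :
    rkN (u * Equiv.swap a b) i (a + 1) = rkN u i a + if i ≤ (u b : ℕ) then 1 else 0 := by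
  rw [rkN_succ, rkN_swap hab i (k := (a : ℕ)) (by omega)]
  simp

open Classical in
/-- (A) -/
theorem config_A (hL : LastAsc u a b) {S : Finset (Fin n × Fin n)} (hS : S ⊆ Steps u)
    (hz : (u a, u b) ∈ S) (h : Config (u * Equiv.swap a b) v (S.erase (u a, u b))) :
    Config u v S := by
  obtain ⟨i, k, T, hTS, hT, hm, hc⟩ := h
  have hab := hL.hab
  have hT' : T ⊆ Steps (u * Equiv.swap a b) := by
    rw [steps_swap hL]
    intro e he
    have := Finset.mem_erase.1 (hTS he)
    exact Finset.mem_erase.2 ⟨this.1, hS this.2⟩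
  have hTS' : T ⊆ S := fun e he => Finset.mem_of_mem_erase (hTS he)
  have hmu := mono_swap hL hT' hm
  by_cases hk : k = a + 1
  swap
  · refine ⟨i, k, T, hTS', ?_, hmu, ?_⟩
    · intro e he
      exact ⟨(pos_lt_iff hab hk e.1).1 (hT e he).1, (hT e he).2⟩
    · rw [under_swap hL hT' i hk, rkN_swap hab i hk] at hc
      exact hc
  subst hk
  have tails : ∀ e ∈ T, u.symm e.1 < a := by
    intro e he
    have h1 := not_tail hL (hT' he)
    have h2 := (hT e he).1
    have h3 : e.1 ≠ u a := by
      intro h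
      rw [h, posA] at h2
      omega
    rw [pos_other h3 h1] at h2
    have h4 : u.symm e.1 ≠ a := by
      intro h
      apply h3
      rw [← h]; simp
    rw [Fin.lt_def]
    have : ((u.symm e.1 : Fin n) : ℕ) ≠ a := fun h => h4 (Fin.ext h)
    omega
  rw [rkN_swap_succ hab, card_under_succ, under_swap hL hT' i (k := (a : ℕ)) (by omega)] at hc
  have e1 : (u * Equiv.swap a b) a = u b := by simp
  rw [e1] at hc
  by_cases h1 : i ≤ (u b : ℕ) ∧ ∃ e ∈ T, (u * Equiv.swap a b).symm e.1 ≤ a ∧ u b ≤ e.2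
  · -- T works
    rw [if_pos h1, if_pos h1.1] at hc
    refine ⟨i, a + 1, T, hTS', ?_, hmu, ?_⟩
    · intro e he
      have := Fin.lt_def.1 (tails e he)
      exact ⟨by omega, (hT e he).2⟩
    · rw [card_under_succ, rkN_succ u]
      by_cases h2 : i ≤ (u a : ℕ)
      · rw [if_pos h2]
        split_ifs <;> omega
      · rw [if_neg h2, if_neg (fun h => h2 h.1)]
        omega
  rw [if_neg h1] at hc
  by_cases h2 : i ≤ (u b : ℕ)
  · -- insert z
    rw [if_pos h2] at hc
    have heads : ∀ e ∈ T, e.2 < u b := by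
      intro e he
      by_contra hcon
      apply h1
      refine ⟨h2, e, he, ?_, not_lt.1 hcon⟩
      have h1 := not_tail hL (hT' he)
      have h3 : e.1 ≠ u a := by
        intro h
        have := tails e he
        rw [h] at this
        simp at this
      rw [pos_other h3 h1]
      exact (tails e he).le
    have hzT : (u a, u b) ∉ T := by
      intro h
      exact lt_irrefl _ (heads _ h)
    refine ⟨i, a + 1, insert (u a, u b) T, ?_, ?_, ?_, ?_⟩
    · intro e he
      rcases Finset.mem_insert.1 he with rfl | he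
      · exact hz
      · exact hTS' he
    · intro e he
      rcases Finset.mem_insert.1 he with rfl | he
      · simp [h2]
      · have := Fin.lt_def.1 (tails e he)
        exact ⟨by omega, (hT e he).2⟩
    · intro e he e' he' hne
      rcases Finset.mem_insert.1 he with rfl | he
      · rcases Finset.mem_insert.1 he' with rfl | he'
        · exact absurd rfl hne
        · right
          refine ⟨?_, heads e' he'⟩
          simpa using tails e' he'
      · rcases Finset.mem_insert.1 he' with rfl | he'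
        · left
          refine ⟨?_, heads e he⟩
          simpa using tails e he
        · exact hmu e he e' he' hne
    · have h3 : Under u i a (insert (u a, u b) T) = Under u i a T := by
        ext y
        rw [mem_Under, mem_Under]
        constructor
        · rintro ⟨h4, h5, e, he, h6⟩
          rcases Finset.mem_insert.1 he with rfl | he
          · exfalso
            have := h6.1
            simp only [Equiv.symm_apply_apply, Fin.le_def] at this
            omega
          · exact ⟨h4, h5, e, he, h6⟩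
        · rintro ⟨h4, h5, e, he, h6⟩
          exact ⟨h4, h5, e, Finset.mem_insert_of_mem he, h6⟩
      rw [card_under_succ, h3, rkN_succ u, Finset.card_insert_of_notMem hzT]
      by_cases h4 : i ≤ (u a : ℕ)
      · rw [if_pos h4]
        split_ifs <;> omega
      · rw [if_neg h4, if_neg (fun h => h4 h.1)]
        omega
  · rw [if_neg h2] at hc
    have h3 : ¬ i ≤ (u a : ℕ) := by
      have := Fin.lt_def.1 hL.lt
      omega
    refine ⟨i, a + 1, T, hTS', ?_, hmu, ?_⟩
    · intro e he
      have := Fin.lt_def.1 (tails e he)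
      exact ⟨by omega, (hT e he).2⟩
    · rw [card_under_succ, rkN_succ u, if_neg h3, if_neg (fun h => h3 h.1)]
      omega

open Classical in
/-- (B) -/
theorem config_B (hL : LastAsc u a b) {S : Finset (Fin n × Fin n)} (hS : S ⊆ Steps u)
    (hz : (u a, u b) ∉ S) (h : Config (u * Equiv.swap a b) (dem v a b) S) :
    Config u v S := by
  obtain ⟨i, k, T, hTS, hT, hm, hc⟩ := h
  have hab := hL.hab
  have hT' : T ⊆ Steps (u * Equiv.swap a b) := by
    rw [steps_swap hL]
    intro e he
    refine Finset.mem_erase.2 ⟨?_, hS (hTS he)⟩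
    rintro rfl
    exact hz (hTS he)
  have hmu := mono_swap hL hT' hm
  by_cases hk : k = a + 1
  swap
  · refine ⟨i, k, T, hTS, ?_, hmu, ?_⟩
    · intro e he
      exact ⟨(pos_lt_iff hab hk e.1).1 (hT e he).1, (hT e he).2⟩
    · rw [under_swap hL hT' i hk, rkN_swap hab i hk, rkN_dem hab i hk] at hc
      exact hc
  subst hk
  have tails : ∀ e ∈ T, u.symm e.1 < a ∧ (u * Equiv.swap a b).symm e.1 = u.symm e.1 := by
    intro e he
    have h1 := not_tail hL (hT' he)
    have h2 := (hT e he).1
    have h3 : e.1 ≠ u a := by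
      intro h
      rw [h, posA] at h2
      omega
    rw [pos_other h3 h1] at h2 ⊢
    have h4 : u.symm e.1 ≠ a := by
      intro h
      apply h3
      rw [← h]; simp
    rw [Fin.lt_def]
    have : ((u.symm e.1 : Fin n) : ℕ) ≠ a := fun h => h4 (Fin.ext h)
    exact ⟨by omega, rfl⟩
  rw [rkN_swap_succ hab, card_under_succ, under_swap hL hT' i (k := (a : ℕ)) (by omega)] at hc
  have e1 : (u * Equiv.swap a b) a = u b := by simp
  rw [e1] at hc
  rcases rkN_dem_eq (v := v) hab i with h1 | h1
  · refine ⟨i, a, T, hTS, ?_, hmu, ?_⟩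
    · intro e he
      exact ⟨Fin.lt_def.1 (tails e he).1, (hT e he).2⟩
    · rw [h1] at hc
      by_cases h2 : i ≤ (u b : ℕ)
      · rw [if_pos h2] at hc
        omega
      · rw [if_neg h2] at hc
        omega
  · refine ⟨i, a + 2, T, hTS, ?_, hmu, ?_⟩
    · intro e he
      have := Fin.lt_def.1 (tails e he).1
      exact ⟨by omega, (hT e he).2⟩
    · rw [h1] at hc
      have e2 := card_under_succ u i b T
      rw [hab] at e2
      have e3 : (Under u i ((a : ℕ) + 1 + 1) T).card = (Under u i (a + 2) T).card := rfl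
      rw [e3, card_under_succ u i a T] at e2
      have e4 := rkN_succ u i b
      rw [hab, rkN_succ u i a] at e4
      have e5 : rkN u i ((a : ℕ) + 1 + 1) = rkN u i (a + 2) := rfl
      rw [e5] at e4
      rw [e2, e4]
      have e6 : (i ≤ (u b : ℕ) ∧ ∃ e ∈ T, u.symm e.1 ≤ b ∧ u b ≤ e.2) →
          (i ≤ (u b : ℕ) ∧ ∃ e ∈ T, (u * Equiv.swap a b).symm e.1 ≤ a ∧ u b ≤ e.2) := by
        rintro ⟨h2, e, he, _, h3⟩
        refine ⟨h2, e, he, ?_, h3⟩
        rw [(tails e he).2]
        exact (tails e he).1.le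
      have e7 : (if i ≤ (u b : ℕ) ∧ ∃ e ∈ T, u.symm e.1 ≤ b ∧ u b ≤ e.2 then 1 else 0) ≤
          (if i ≤ (u b : ℕ) ∧ ∃ e ∈ T, (u * Equiv.swap a b).symm e.1 ≤ a ∧ u b ≤ e.2 then 1 else 0) := by
        by_cases h2 : i ≤ (u b : ℕ) ∧ ∃ e ∈ T, u.symm e.1 ≤ b ∧ u b ≤ e.2
        · rw [if_pos h2, if_pos (e6 h2)]
        · rw [if_neg h2]
          exact Nat.zero_le _
      by_cases h4 : i ≤ (u a : ℕ)
      · rw [if_pos h4]
        have e8 : (if i ≤ (u a : ℕ) ∧ ∃ e ∈ T, u.symm e.1 ≤ a ∧ u a ≤ e.2 then 1 else 0) ≤ 1 := by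
          split_ifs <;> omega
        omega
      · rw [if_neg h4, if_neg (fun h => h4 h.1)]
        omega

end Pool.Agent.H5.KL
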