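import Pool.Agent.H5.KL.G4

/-! # Theorem G: the lowest term of a polynomial vanishing on the variety contains a configuration -/

open Matrix

namespace Pool.Agent.H5.KL

open Pool.Agent.H30.KL

variable {n : ℕ} {u v : Equiv.Perm (Fin n)} {a b : Fin n}

theorem eval_zero_of {p : Polynomial ℂ} (h : ∀ ε : ℂ, ε ≠ 0 → p.eval ε = 0) : p.eval 0 = 0 := by
  have : p = 0 := by
    apply Polynomial.eq_zero_of_infinite_isRoot
    apply Set.Infinite.mono (s := {x : ℂ | x ≠ 0})
    · intro x hx
      exact h x hx
    · have h1 : ({x : ℂ | x ≠ 0}) = ({0} : Set ℂ)ᶜ := by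
        ext x; simp
      rw [h1]
      exact (Set.finite_singleton (0 : ℂ)).infinite_compl
  rw [this]; simp

theorem exists_lastAsc (h : (Steps u).Nonempty) : ∃ a b : Fin n, LastAsc u a b := by
  classical
  have hn : ∃ t : ℕ, ∀ c d : Fin n, t ≤ (c : ℕ) → c < d → u d < u c :=
    ⟨n, fun c d hc => absurd c.2 (not_lt.2 hc)⟩
  let t := Nat.find hn
  have ht : ∀ c d : Fin n, t ≤ (c : ℕ) → c < d → u d < u c := Nat.find_spec hn
  have ht0 : t ≠ 0 := by
    intro h0
    obtain ⟨e, he⟩ := h
    obtain ⟨h1, h2⟩ := mem_Steps.1 he
    have h3 := ht _ _ (by omega) h2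
    simp only [Equiv.apply_symm_apply] at h3
    exact absurd h1 (not_lt.2 h3.le)
  have hm := Nat.find_min hn (m := t - 1) (by change t - 1 < t; omega)
  push Not at hm
  obtain ⟨c, d, hc, hcd, hle⟩ := hm
  have hct : (c : ℕ) + 1 = t := by
    by_contra hne
    have h1 : t ≤ (c : ℕ) := by omega
    exact absurd (ht c d h1 hcd) (not_lt.2 hle)
  have hd : t ≤ (d : ℕ) := by
    rw [Fin.lt_def] at hcd
    omega
  have htn : t < n := lt_of_le_of_lt hd d.2
  refine ⟨c, ⟨t, htn⟩, ⟨hct.symm, ?_, ?_⟩⟩
  · have h1 : u c < u d := lt_of_le_of_ne hle (fun h => (ne_of_lt hcd) (u.injective h))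
    rcases hd.lt_or_eq with h2 | h2
    · exact lt_trans h1 (ht ⟨t, htn⟩ d le_rfl (by rw [Fin.lt_def]; exact h2))
    · have : d = ⟨t, htn⟩ := Fin.ext h2.symm
      rw [← this]
      exact h1
  · intro x y hx hxy
    exact ht x y hx hxy

theorem LastAsc.mem (hL : LastAsc u a b) : (u a, u b) ∈ Steps u := by
  rw [mem_Steps]
  refine ⟨hL.lt, ?_⟩
  simp only [Equiv.symm_apply_apply]
  rw [Fin.lt_def, hL.hab]
  omega

theorem LastAsc.key_lt (hL : LastAsc u a b) {key : Fin n × Fin n → ℕ} (hK : Compat u key)
    {e : Fin n × Fin n} (he : e ∈ Steps u) (hne : e ≠ (u a, u b)) : key e < key (u a, u b) := by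
  apply hK e he _ hL.mem
  obtain ⟨h1, h2⟩ := mem_Steps.1 he
  simp only [Equiv.symm_apply_apply]
  have h3 : ¬ b ≤ u.symm e.1 := by
    intro h
    have := hL.dec _ _ h h2
    simp only [Equiv.apply_symm_apply] at this
    exact absurd h1 (not_lt.2 this.le)
  by_cases h4 : u.symm e.1 = a
  · right
    have h5 : e.1 = u a := by rw [← h4]; simp
    refine ⟨h5, ?_⟩
    have h6 : b ≤ u.symm e.2 := by
      rw [h4, Fin.lt_def] at h2
      rw [Fin.le_def, hL.hab]
      omega
    rcases eq_or_lt_of_le h6 with h7 | h7
    · exfalso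
      apply hne
      have h8 : e.2 = u b := by rw [h7]; simp
      exact Prod.ext h5 h8
    · have := hL.dec b _ le_rfl h7
      simpa using this
  · left
    rw [Fin.le_def, not_le, hL.hab] at h3
    have : ((u.symm e.1 : Fin n) : ℕ) ≠ a := fun h => h4 (Fin.ext h)
    rw [Fin.lt_def]
    omega

theorem compat_swap (hL : LastAsc u a b) {key : Fin n × Fin n → ℕ} (hK : Compat u key) :
    Compat (u * Equiv.swap a b) key := by
  intro e he e' he' h
  have hs := steps_swap hL
  have he1 : e ∈ Steps u := by
    rw [hs] at he
    exact Finset.mem_of_mem_erase he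
  have he1' : e' ∈ Steps u := by
    rw [hs] at he'
    exact Finset.mem_of_mem_erase he'
  apply hK e he1 e' he1'
  rcases h with h | h
  · left
    exact (pos_lt hL.hab (fun h => not_tail hL he' h.2) (fun h => not_tail hL he h.1)).1 h
  · exact Or.inr h

theorem rank_bx_one (u : Equiv.Perm (Fin n)) (i k : ℕ) :
    (bx i k ((1 : Matrix (Fin n) (Fin n) ℂ).submatrix id u)).rank ≤ rkN u i k := by
  have h : bx i k ((1 : Matrix (Fin n) (Fin n) ℂ).submatrix id u) =
      ((1 : Matrix (Fin n) (Fin n) ℂ).submatrix id u) *
        diagonal (fun q : Fin n => if (q : ℕ) < k ∧ i ≤ (u q : ℕ) then (1 : ℂ) else 0) := by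
    ext p q
    rw [mul_diagonal, bx_apply, submatrix_apply, one_apply, id]
    by_cases h : p = u q
    · subst h
      by_cases h1 : (q : ℕ) < k <;> by_cases h2 : i ≤ (u q : ℕ) <;> simp [h1, h2]
    · simp [h]
  rw [h]
  refine le_trans (rank_mul_le_right _ _) ?_
  rw [rank_diagonal, rkN, Fintype.card_subtype]
  apply le_of_eq
  congr 1
  ext q
  simp

theorem ev_curve {Z E : Matrix (Fin n) (Fin n) ℂ} {A B : Fin n} {ε : ℂ} (S : Finset (Fin n × Fin n))
    (hz : (A, B) ∉ S) :
    ∏ e ∈ S, (Matrix.of fun r p => Z r p - ε * E r p + if r = B ∧ p = A then ε⁻¹ else 0) e.2 e.1 =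
      ∏ e ∈ S, (Z e.2 e.1 - ε * E e.2 e.1) := by
  apply Finset.prod_congr rfl
  intro e he
  rw [of_apply, if_neg, add_zero]
  rintro ⟨h1, h2⟩
  apply hz
  rw [← h1, ← h2]
  exact he

/-- Theorem G -/
theorem theoremG : ∀ (N : ℕ) (u v : Equiv.Perm (Fin n)) (key : Fin n × Fin n → ℕ)
    (F : Finset (Finset (Fin n × Fin n))) (α : Finset (Fin n × Fin n) → ℂ)
    (S0 : Finset (Fin n × Fin n)), (Steps u).card = N → Compat u key → S0 ∈ F → α S0 ≠ 0 →
    (∀ S ∈ F, S ⊆ Steps u) → (∀ S ∈ F, S ≠ S0 → LexLt key S S0) →
    (∀ Z, Pt u v Z → ∑ S ∈ F, α S * ∏ e ∈ S, Z e.2 e.1 = 0) → Config u v S0 := by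
  classical
  intro N
  induction N with
  | zero =>
    intro u v key F α S0 hN _ hS0 hα hF _ hvan
    have hst : Steps u = ∅ := Finset.card_eq_zero.1 hN
    have hE : ∀ S ∈ F, S = ∅ := by
      intro S hS
      have := hF S hS
      rw [hst] at this
      exact Finset.subset_empty.1 this
    have hFe : F = {S0} := by
      ext S
      rw [Finset.mem_singleton]
      constructor
      · intro hS
        rw [hE S hS, hE S0 hS0]
      · rintro rfl
        exact hS0
    have hnot : ¬ Pt u v 1 := by
      intro hP
      have := hvan 1 hP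
      rw [hFe, Finset.sum_singleton, hE S0 hS0, Finset.prod_empty, mul_one, ← hE S0 hS0] at this
      exact hα this
    have : ∃ i k : ℕ, rkN v i k < (bx i k ((1 : Matrix (Fin n) (Fin n) ℂ).submatrix id u)).rank := by
      by_contra hcon
      push Not at hcon
      apply hnot
      refine ⟨fun p => one_apply_eq p, fun r p hne _ => one_apply_ne hne, hcon⟩
    obtain ⟨i, k, hik⟩ := this
    refine ⟨i, k, ∅, Finset.empty_subset _, by simp, by intro e he; simp at he, ?_⟩
    have h1 := rank_bx_one u i k
    have h2 : Under u i k ∅ = ∅ := by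
      ext y; simp [Under]
    rw [h2]
    simp only [Finset.card_empty, add_zero]
    omega
  | succ N ih =>
    intro u v key F α S0 hN hK hS0 hα hF hlex hvan
    have hne : (Steps u).Nonempty := by
      rw [← Finset.card_pos]
      omega
    obtain ⟨a, b, hL⟩ := exists_lastAsc hne
    set z : Fin n × Fin n := (u a, u b) with hz
    have hcard : (Steps (u * Equiv.swap a b)).card = N := by
      rw [steps_swap hL, Finset.card_erase_of_mem hL.mem]
      omega
    have hK' := compat_swap hL hK
    by_cases hzS : z ∈ S0
    · -- z ∈ S0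
      apply config_A hL (hF S0 hS0) hzS
      apply ih (u * Equiv.swap a b) v key ((F.filter fun S => z ∈ S).image fun S => S.erase z)
        (fun S => α (insert z S)) (S0.erase z) hcard hK'
      · exact Finset.mem_image_of_mem _ (Finset.mem_filter.2 ⟨hS0, hzS⟩)
      · rw [Finset.insert_erase hzS]
        exact hα
      · intro S hS
        obtain ⟨S', hS', rfl⟩ := Finset.mem_image.1 hS
        rw [steps_swap hL]
        exact Finset.erase_subset_erase _ (hF S' (Finset.mem_filter.1 hS').1)
      · intro S hS hne'
        obtain ⟨S', hS', rfl⟩ := Finset.mem_image.1 hS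
        obtain ⟨hS'F, hzS'⟩ := Finset.mem_filter.1 hS'
        have hne2 : S' ≠ S0 := by
          rintro rfl
          exact hne' rfl
        obtain ⟨e, he, hmax⟩ := hlex S' hS'F hne2
        obtain ⟨he1, he2⟩ := Finset.mem_sdiff.1 he
        have hez : e ≠ z := by
          rintro rfl
          exact he2 hzS'
        refine ⟨e, Finset.mem_sdiff.2 ⟨Finset.mem_erase.2 ⟨hez, he1⟩, fun h => he2 (Finset.mem_of_mem_erase h)⟩, ?_⟩
        intro e' he'
        obtain ⟨h1, h2⟩ := Finset.mem_sdiff.1 he'
        obtain ⟨h3, h4⟩ := Finset.mem_erase.1 h1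
        apply hmax
        refine Finset.mem_sdiff.2 ⟨h4, fun h => h2 (Finset.mem_erase.2 ⟨h3, h⟩)⟩
      · intro Z hZ
        obtain ⟨E, hE0, hE⟩ := curve hL hZ
        set p : Polynomial ℂ := ∑ S ∈ F, Polynomial.C (α S) * (if z ∈ S then
            ∏ e ∈ S.erase z, (Polynomial.C (Z e.2 e.1) - Polynomial.X * Polynomial.C (E e.2 e.1))
          else Polynomial.X *
            ∏ e ∈ S, (Polynomial.C (Z e.2 e.1) - Polynomial.X * Polynomial.C (E e.2 e.1))) with hp
        have hpe : ∀ ε : ℂ, p.eval ε = ∑ S ∈ F, α S * (if z ∈ S then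
            ∏ e ∈ S.erase z, (Z e.2 e.1 - ε * E e.2 e.1)
          else ε * ∏ e ∈ S, (Z e.2 e.1 - ε * E e.2 e.1)) := by
          intro ε
          rw [hp, Polynomial.eval_finset_sum]
          apply Finset.sum_congr rfl
          intro S _
          rw [Polynomial.eval_mul, Polynomial.eval_C]
          split_ifs
          · rw [Polynomial.eval_prod]
            simp only [Polynomial.eval_sub, Polynomial.eval_mul, Polynomial.eval_C, Polynomial.eval_X]
          · rw [Polynomial.eval_mul, Polynomial.eval_X, Polynomial.eval_prod]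
            simp only [Polynomial.eval_sub, Polynomial.eval_mul, Polynomial.eval_C, Polynomial.eval_X]
        have h0 : p.eval 0 = 0 := by
          apply eval_zero_of
          intro ε hε
          have h1 := hvan _ (hE ε hε)
          rw [hpe]
          have h2 : ∀ S ∈ F, α S * (if z ∈ S then
                ∏ e ∈ S.erase z, (Z e.2 e.1 - ε * E e.2 e.1)
              else ε * ∏ e ∈ S, (Z e.2 e.1 - ε * E e.2 e.1)) =
              ε * (α S * ∏ e ∈ S, (Matrix.of fun r p =>
                Z r p - ε * E r p + if r = u b ∧ p = u a then ε⁻¹ else 0) e.2 e.1) := by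
            intro S hS
            by_cases hzS' : z ∈ S
            · rw [if_pos hzS', ← Finset.mul_prod_erase S _ hzS']
              rw [ev_curve (A := u a) (B := u b) (S.erase z) (Finset.notMem_erase _ _)]
              have h3 : Z (u b) (u a) = 0 := Pt.BA hL hZ
              have h4 : (Matrix.of fun r p => Z r p - ε * E r p + if r = u b ∧ p = u a then ε⁻¹ else 0)
                  z.2 z.1 = ε⁻¹ := by
                rw [of_apply, hz, if_pos (And.intro rfl rfl), h3, hE0]
                ring
              rw [h4]
              field_simp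
            · rw [if_neg hzS', ev_curve (A := u a) (B := u b) S hzS']
              ring
          rw [Finset.sum_congr rfl h2, ← Finset.mul_sum, h1, mul_zero]
        rw [hpe] at h0
        rw [Finset.sum_image, Finset.sum_filter]
        · refine Eq.trans ?_ h0
          apply Finset.sum_congr rfl
          intro S _
          by_cases hzS' : z ∈ S
          · rw [if_pos hzS', if_pos hzS', Finset.insert_erase hzS']
            congr 1
            apply Finset.prod_congr rfl
            intro e _
            ring
          · rw [if_neg hzS', if_neg hzS']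
            ring
        · intro S hS S' hS' h
          have h1 := (Finset.mem_filter.1 hS).2
          have h2 := (Finset.mem_filter.1 hS').2
          have h3 : insert z (S.erase z) = insert z (S'.erase z) := by
            rw [show S.erase z = S'.erase z from h]
          rwa [Finset.insert_erase h1, Finset.insert_erase h2] at h3
    · -- z ∉ S0
      have hno : ∀ S ∈ F, z ∉ S := by
        intro S hS hzS'
        have hne2 : S ≠ S0 := by
          rintro rfl
          exact hzS hzS'
        obtain ⟨e, he, hmax⟩ := hlex S hS hne2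
        obtain ⟨he1, he2⟩ := Finset.mem_sdiff.1 he
        have h1 := hmax z (Finset.mem_sdiff.2 ⟨hzS', hzS⟩)
        have h2 := hL.key_lt hK (hF S0 hS0 he1) (by rintro rfl; exact hzS he1)
        rw [← hz] at h2
        omega
      apply config_B hL (hF S0 hS0) hzS
      apply ih (u * Equiv.swap a b) (dem v a b) key F α S0 hcard hK' hS0 hα
      · intro S hS
        rw [steps_swap hL]
        intro e he
        refine Finset.mem_erase.2 ⟨?_, hF S hS he⟩
        rintro rfl
        exact hno S hS he
      · exact hlex
      · intro Z hZ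
        rcases lift hL hZ with hZ | ⟨t, ht⟩
        · obtain ⟨E, hE0, hE⟩ := curve hL hZ
          set p : Polynomial ℂ := ∑ S ∈ F, Polynomial.C (α S) *
            ∏ e ∈ S, (Polynomial.C (Z e.2 e.1) - Polynomial.X * Polynomial.C (E e.2 e.1)) with hp
          have hpe : ∀ ε : ℂ, p.eval ε = ∑ S ∈ F, α S *
            ∏ e ∈ S, (Z e.2 e.1 - ε * E e.2 e.1) := by
            intro ε
            rw [hp, Polynomial.eval_finset_sum]
            apply Finset.sum_congr rfl
            intro S _
            rw [Polynomial.eval_mul, Polynomial.eval_C, Polynomial.eval_prod]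
            simp only [Polynomial.eval_sub, Polynomial.eval_mul, Polynomial.eval_C, Polynomial.eval_X]
          have h0 : p.eval 0 = 0 := by
            apply eval_zero_of
            intro ε hε
            have h1 := hvan _ (hE ε hε)
            rw [hpe, ← h1]
            apply Finset.sum_congr rfl
            intro S hS
            rw [ev_curve (A := u a) (B := u b) S (hno S hS)]
          rw [hpe] at h0
          refine Eq.trans ?_ h0
          apply Finset.sum_congr rfl
          intro S _
          congr 1
          apply Finset.prod_congr rfl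
          intro e _
          ring
        · have h1 := hvan _ ht
          rw [← h1]
          apply Finset.sum_congr rfl
          intro S hS
          congr 1
          apply Finset.prod_congr rfl
          intro e he
          rw [of_apply, if_neg, add_zero]
          rintro ⟨h2, h3⟩
          apply hno S hS
          rw [hz, ← h2, ← h3]
          exact he

end Pool.Agent.H5.KL
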