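import Pool.Agent.H30.KL.Basic

/-!
# Gröbner criterion for Kazhdan–Lusztig ideals (MP_a7460d_ag): definitions

Dots of `u` are labelled by their VALUES; the dot with value `p` has position `u.symm p`.
A step is a pair `(p, q)` (value of the tail, value of the head) with `p < q` and
`u.symm p < u.symm q`.
-/

open Matrix

namespace Pool.Agent.H5.KL

open Pool.Agent.H30.KL

variable {n : ℕ}

/-- `#{c < k : v c ≥ i}` -/
def rkN (v : Equiv.Perm (Fin n)) (i k : ℕ) : ℕ :=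
  (Finset.univ.filter fun c : Fin n => (c : ℕ) < k ∧ i ≤ (v c : ℕ)).card

/-- rows `≥ i`, columns `< k` -/
def bx (i k : ℕ) (M : Matrix (Fin n) (Fin n) ℂ) : Matrix (Fin n) (Fin n) ℂ :=
  Matrix.of fun p q => if i ≤ (p : ℕ) ∧ (q : ℕ) < k then M p q else 0

theorem bx_apply (i k : ℕ) (M : Matrix (Fin n) (Fin n) ℂ) (p q : Fin n) :
    bx i k M p q = if i ≤ (p : ℕ) ∧ (q : ℕ) < k then M p q else 0 := rfl

/-- the points of the Kazhdan–Lusztig variety, with columns labelled by the values of `u` -/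
structure Pt (u v : Equiv.Perm (Fin n)) (Z : Matrix (Fin n) (Fin n) ℂ) : Prop where
  diag : ∀ p, Z p p = 1
  zero : ∀ r p, r ≠ p → ¬ (p < r ∧ u.symm p < u.symm r) → Z r p = 0
  rank : ∀ i k : ℕ, (bx i k (Z.submatrix id u)).rank ≤ rkN v i k

/-- the steps of `u` -/
def Steps (u : Equiv.Perm (Fin n)) : Finset (Fin n × Fin n) :=
  Finset.univ.filter fun e => e.1 < e.2 ∧ u.symm e.1 < u.symm e.2

theorem mem_Steps {u : Equiv.Perm (Fin n)} {e : Fin n × Fin n} :
    e ∈ Steps u ↔ e.1 < e.2 ∧ u.symm e.1 < u.symm e.2 := by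
  simp [Steps]

/-- `T` is a monotone chain of steps: tails further to the right have higher heads -/
def Mono (u : Equiv.Perm (Fin n)) (T : Finset (Fin n × Fin n)) : Prop :=
  ∀ e ∈ T, ∀ e' ∈ T, e ≠ e' →
    (u.symm e.1 < u.symm e'.1 ∧ e.2 < e'.2) ∨ (u.symm e'.1 < u.symm e.1 ∧ e'.2 < e.2)

/-- the dots of the box `(i,k)` (rows `≥ i`, columns `< k`) weakly under `T` -/
def Under (u : Equiv.Perm (Fin n)) (i k : ℕ) (T : Finset (Fin n × Fin n)) : Finset (Fin n) :=
  Finset.univ.filter fun y => i ≤ (y : ℕ) ∧ ((u.symm y : Fin n) : ℕ) < k ∧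
    ∃ e ∈ T, u.symm e.1 ≤ u.symm y ∧ y ≤ e.2

theorem mem_Under {u : Equiv.Perm (Fin n)} {i k : ℕ} {T : Finset (Fin n × Fin n)} {y : Fin n} :
    y ∈ Under u i k T ↔ i ≤ (y : ℕ) ∧ ((u.symm y : Fin n) : ℕ) < k ∧
      ∃ e ∈ T, u.symm e.1 ≤ u.symm y ∧ y ≤ e.2 := by
  simp [Under]

/-- a configuration in `S`: a box `(i,k)` and a monotone chain `T ⊆ S` with tails in the columns
`< k` and heads in the rows `≥ i` and `r_v - r_u + 1 + #Under ≤ #T` -/
def Config (u v : Equiv.Perm (Fin n)) (S : Finset (Fin n × Fin n)) : Prop :=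
  ∃ (i k : ℕ) (T : Finset (Fin n × Fin n)), T ⊆ S ∧
    (∀ e ∈ T, ((u.symm e.1 : Fin n) : ℕ) < k ∧ i ≤ (e.2 : ℕ)) ∧ Mono u T ∧
    rkN v i k + 1 + (Under u i k T).card ≤ rkN u i k + T.card

/-- `S` is smaller than `S'` in the lexicographic order given by `key`: the largest element of the
symmetric difference lies in `S'` -/
def LexLt (key : Fin n × Fin n → ℕ) (S S' : Finset (Fin n × Fin n)) : Prop :=
  ∃ e ∈ S' \ S, ∀ e' ∈ S \ S', key e' < key e

/-- `key` refines the order 'tail further to the right, then higher head' on the steps of `u` -/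
def Compat (u : Equiv.Perm (Fin n)) (key : Fin n × Fin n → ℕ) : Prop :=
  ∀ e ∈ Steps u, ∀ e' ∈ Steps u,
    (u.symm e.1 < u.symm e'.1 ∨ e.1 = e'.1 ∧ e.2 < e'.2) → key e < key e'

end Pool.Agent.H5.KL
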